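import Pool.Agent.N399.BH.Main

/-!
# The maximal height `B(p q^b)` of a divisor of `X^(p q^b) - 1` is divisible by `p`

`p < q` primes, `p` odd, `b ≥ 1`. More precisely `B(p q^(b+1)) = p C`, where `C` is the largest
height of a divisor of `(X^(p q^b) - 1) / (X^p - 1)` in `ℤ[X]`.

Definitions (`Pool/Agent/N944/BH/Base.lean`): `height f` is the largest absolute value of a
coefficient of `f`, and `B n = sSup {height f | f ∣ X^n - 1}`, which is a maximum for `n ≥ 1`.

Proof: a divisor is, up to sign, `A(X) G(X^q)`, where `A` is a product of some of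
`Φ_1, Φ_p, Φ_q, Φ_pq` and `G` divides `(X^(p q^b) - 1) / (X^p - 1)`. For each of the sixteen `A`
the sum of the absolute values of the coefficients of `A` in every residue class modulo `q` is at
most `p`, thus the height is at most `p` times the height of `G`; and for `A = Φ_p Φ_q` the class of
`p - 1` contains only the coefficient `p`.
-/

set_option autoImplicit false

namespace Pool.Agent.Results.MP_b384de_nt.DivisibleByP

open Pool.Agent.N944.BH Pool.Agent.N399.BH Polynomial

/-- For an odd prime `p`, a prime `q > p` and `b ≥ 1` the prime `p` divides `B(p q^b)`. Moreover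
`B(p q^(b+1))` is `p` times the largest height of a polynomial `g` such that `g (X^p - 1)` divides
`X^(p q^b) - 1`. `B n` is a maximum for every `n ≥ 1`. -/
theorem result :
    (∀ p q b : ℕ, p.Prime → q.Prime → p ≠ 2 → p < q → 1 ≤ b → p ∣ B (p * q ^ b)) ∧
    (∀ p q b : ℕ, p.Prime → q.Prime → p ≠ 2 → p < q →
      (∀ g : ℤ[X], g * (X ^ p - 1) ∣ X ^ (p * q ^ b) - 1 → p * height g ≤ B (p * q ^ (b + 1))) ∧
      ∃ g : ℤ[X], g * (X ^ p - 1) ∣ X ^ (p * q ^ b) - 1 ∧ B (p * q ^ (b + 1)) = p * height g) ∧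
    (∀ n : ℕ, 1 ≤ n → (∀ f : ℤ[X], f ∣ X ^ n - 1 → height f ≤ B n) ∧
      ∃ f : ℤ[X], f ∣ X ^ n - 1 ∧ height f = B n) := by
  refine ⟨fun p q b hp hq hp2 hpq hb => ?_, fun p q b hp hq hp2 hpq =>
    ⟨fun g hg => lower_mul hp hq hpq hg, main hp2 hp hq hpq b⟩,
    fun n hn => ⟨fun f hf => le_B hn hf, B_mem hn⟩⟩
  obtain ⟨c, rfl⟩ : ∃ c, b = c + 1 := ⟨b - 1, by omega⟩
  obtain ⟨g, -, hg⟩ := main hp2 hp hq hpq c
  exact ⟨height g, hg⟩

end Pool.Agent.Results.MP_b384de_nt.DivisibleByP
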